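import Pool.Agent.helper95.RF.SpecC3

/-! Project RF, stage 2 (MP_16912e_nt), row GKT: properties of the elements `k`. -/

set_option autoImplicit false

namespace Pool.Agent.RF

open Finset NumberField Pool.Agent.helper3.FT

theorem GKT_sq : (√5 : ℝ) ^ 2 = 5 := Real.sq_sqrt (by norm_num)

theorem GKT_s5 : (2236 / 1000 : ℝ) < √5 ∧ √5 < 2237 / 1000 := by
  constructor
  · rw [Real.lt_sqrt (by norm_num)]
    norm_num
  · rw [Real.sqrt_lt' (by norm_num)]
    norm_num

theorem GKT_va (x y : OO) : va (x * y) = va x * va y := by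
  have h5 := GKT_sq
  simp only [va, QuadraticAlgebra.re_mul, QuadraticAlgebra.im_mul]
  push_cast
  linear_combination (-(x.im : ℝ) * y.im / 4) * h5

theorem GKT_vb (x y : OO) : vb (x * y) = vb x * vb y := by
  have h5 := GKT_sq
  simp only [vb, QuadraticAlgebra.re_mul, QuadraticAlgebra.im_mul]
  push_cast
  linear_combination (-(x.im : ℝ) * y.im / 4) * h5

theorem GKT_kk (k : OO) : k * star k = ((k.norm : ℤ) : OO) := by
  rw [← QuadraticAlgebra.algebraMap_norm_eq_mul_star]
  exact eq_intCast (algebraMap ℤ OO) _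

theorem GKT_r5 (k : OO) : r5 * (k - star k) = ((5 * k.im : ℤ) : OO) := by
  unfold r5
  ext
  · rw [QuadraticAlgebra.re_intCast]
    simp only [QuadraticAlgebra.re_mul, QuadraticAlgebra.re_sub, QuadraticAlgebra.im_sub, QuadraticAlgebra.re_star, QuadraticAlgebra.im_star, Int.cast_id]
    ring
  · rw [QuadraticAlgebra.im_intCast]
    simp only [QuadraticAlgebra.im_mul, QuadraticAlgebra.re_sub, QuadraticAlgebra.im_sub, QuadraticAlgebra.re_star, QuadraticAlgebra.im_star]
    ring

theorem GKT_cop (k : OO) (h : IsCoprime k.norm (5 * k.im)) : IsCoprime k (star k) := by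
  obtain ⟨s, t, hst⟩ := h
  refine ⟨(s : OO) * star k + (t : OO) * r5, -((t : OO) * r5), ?_⟩
  have h1 := GKT_kk k
  have h2 := GKT_r5 k
  have h3 : (s : OO) * ((k.norm : ℤ) : OO) + (t : OO) * ((5 * k.im : ℤ) : OO) = 1 := by
    have h4 := congrArg (Int.cast : ℤ → OO) hst
    rw [Int.cast_add, Int.cast_mul, Int.cast_mul, Int.cast_one] at h4
    exact h4
  linear_combination (s : OO) * h1 + (t : OO) * h2 + h3

/-- the real data of an element -/
theorem GKT_mem {X : ℝ} {e : ℕ} {k : OO} (h : k ∈ KT X e) : 98 / 100 * X < k.re ∧ (k.re : ℝ) ≤ X ∧ 8 / 100 * X < k.im ∧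
    (k.im : ℝ) ≤ 85 / 1000 * X ∧ IsCoprime k.re k.im ∧ (e : ℤ) ∣ k.re - 1 ∧ (e : ℤ) ∣ k.im - 1 := by
  classical
  unfold KT at h
  rw [mem_image] at h
  obtain ⟨p, hp, rfl⟩ := h
  rw [mem_filter] at hp
  obtain ⟨_, h1, h2, h3, h4, h5, h6, h7⟩ := hp
  refine ⟨by exact_mod_cast h1, by exact_mod_cast h2, by exact_mod_cast h3, by exact_mod_cast h4, ?_, h6, h7⟩
  exact Nat.isCoprime_iff_coprime.2 h5

theorem GKT_vab {X : ℝ} {k : OO} (h1 : 98 / 100 * X < k.re) (h2 : (k.re : ℝ) ≤ X) (h3 : 8 / 100 * X < k.im)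
    (h4 : (k.im : ℝ) ≤ 85 / 1000 * X) (hX : 100 ≤ X) : 1109 / 1000 * X < va k ∧ va k < 1138 / 1000 * X ∧
    927 / 1000 * X < vb k ∧ vb k < 951 / 1000 * X := by
  obtain ⟨s1, s2⟩ := GKT_s5
  unfold va vb
  have hi : (0 : ℝ) < k.im := by linarith
  refine ⟨?_, ?_, ?_, ?_⟩
  · have := mul_lt_mul_of_pos_left s1 hi
    nlinarith
  · have := mul_lt_mul_of_pos_left s2 hi
    nlinarith
  · have := mul_lt_mul_of_pos_left s2 hi
    nlinarith
  · have := mul_lt_mul_of_pos_left s1 hi
    nlinarith

theorem GKT : GKT_stmt := by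
  classical
  intro X e hX he
  have hX2 : (10000 : ℝ) ≤ X ^ 2 := by nlinarith
  constructor
  · intro k hk
    obtain ⟨h1, h2, h3, h4, h5, h6, h7⟩ := GKT_mem hk
    obtain ⟨a1, a2, b1, b2⟩ := GKT_vab h1 h2 h3 h4 hX
    have hN : k.norm = k.re ^ 2 + k.re * k.im - k.im ^ 2 := by
      rw [QuadraticAlgebra.norm_def]
      ring
    have hNR : (k.norm : ℝ) = (k.re : ℝ) ^ 2 + k.re * k.im - (k.im : ℝ) ^ 2 := by
      rw [hN]
      push_cast
      ring
    have hlow : 103 / 100 * X ^ 2 < (k.norm : ℝ) := by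
      rw [hNR]
      nlinarith
    have hup : (k.norm : ℝ) < 108 / 100 * X ^ 2 := by
      rw [hNR]
      nlinarith
    have hpos : 0 < k.norm := by
      have : (0 : ℝ) < k.norm := by nlinarith
      exact_mod_cast this
    have hnat : ((k.norm.natAbs : ℕ) : ℝ) = (k.norm : ℝ) := by
      rw [Nat.cast_natAbs, abs_of_pos hpos]
    have hce : Nat.Coprime k.norm.natAbs e := by
      have h8 : (e : ℤ) ∣ k.norm - 1 := by
        obtain ⟨u, hu⟩ := h6
        obtain ⟨v, hv⟩ := h7
        refine ⟨u * (k.re + 1 + k.im) - v * k.im, ?_⟩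
        rw [hN]
        linear_combination (k.re + 1 + k.im) * hu - k.im * hv
      have h9 : IsCoprime k.norm (e : ℤ) := by
        obtain ⟨u, hu⟩ := h8
        exact ⟨1, -u, by linear_combination hu⟩
      have h10 := Int.isCoprime_iff_gcd_eq_one.1 h9
      exact h10
    have hc10 : Nat.Coprime k.norm.natAbs 10 := Nat.Coprime.coprime_dvd_right he hce
    have hQ1 : (⌊X ^ 2⌋₊ : ℝ) ≤ X ^ 2 := Nat.floor_le (by positivity)
    have hQ2 : X ^ 2 < (⌊X ^ 2⌋₊ : ℝ) + 1 := Nat.lt_floor_add_one _
    have hsq : 9 / 10 * X ≤ √(⌊X ^ 2⌋₊ : ℝ) := by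
      apply Real.le_sqrt_of_sq_le
      nlinarith
    have hcp : IsCoprime k (star k) := by
      apply GKT_cop
      have c5 : IsCoprime k.norm 5 := by
        have : Nat.Coprime k.norm.natAbs 5 := Nat.Coprime.coprime_dvd_right (by norm_num) hc10
        exact Int.isCoprime_iff_gcd_eq_one.2 this
      have cy : IsCoprime k.norm k.im := by
        have h11 : IsCoprime (k.re ^ 2) k.im := h5.pow_left
        have h12 : k.norm = k.re ^ 2 + k.im * (k.re - k.im) := by
          rw [hN]
          ring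
        rw [h12]
        exact (IsCoprime.add_mul_left_left_iff).2 h11
      exact c5.mul_right cy
    refine ⟨⟨hcp, hc10, ?_, ?_, ?_, ?_⟩, hce, hpos, ?_, ?_⟩
    · have : (⌊X ^ 2⌋₊ : ℝ) < ((k.norm.natAbs : ℕ) : ℝ) := by
        rw [hnat]
        nlinarith
      exact_mod_cast this
    · have : ((k.norm.natAbs : ℕ) : ℝ) ≤ 2 * (⌊X ^ 2⌋₊ : ℝ) := by
        rw [hnat]
        nlinarith
      exact_mod_cast this
    · rw [abs_of_pos (by linarith)]
      linarith
    · rw [abs_of_pos (by linarith)]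
      linarith
    · rw [hnat]
      nlinarith
    · rw [hnat]
      exact hup.le
  · intro k hk k₁ hk₁ hd hd₁
    obtain ⟨h1, h2, h3, h4, h5, h6, h7⟩ := GKT_mem hk
    obtain ⟨a1, a2, b1, b2⟩ := GKT_vab h1 h2 h3 h4 hX
    obtain ⟨g1, g2, g3, g4, -, -, -⟩ := GKT_mem hk₁
    obtain ⟨c1, c2, d1, d2⟩ := GKT_vab g1 g2 g3 g4 hX
    obtain ⟨u, hu⟩ := hd
    have hva : va k₁ = va k * va u := by rw [hu, GKT_va]
    have hvb : vb k₁ = vb k * vb u := by rw [hu, GKT_vb]
    have hX0 : (0 : ℝ) < X := by linarith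
    have e1 : va u < 104 / 100 := by
      by_contra hcon
      push Not at hcon
      have : va k * (104 / 100) ≤ va k * va u := mul_le_mul_of_nonneg_left hcon (by linarith)
      rw [← hva] at this
      linarith
    have e2 : 96 / 100 < va u := by
      by_contra hcon
      push Not at hcon
      have : va k * va u ≤ va k * (96 / 100) := mul_le_mul_of_nonneg_left hcon (by linarith)
      rw [← hva] at this
      linarith
    have e3 : vb u < 104 / 100 := by
      by_contra hcon
      push Not at hcon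
      have : vb k * (104 / 100) ≤ vb k * vb u := mul_le_mul_of_nonneg_left hcon (by linarith)
      rw [← hvb] at this
      linarith
    have e4 : 96 / 100 < vb u := by
      by_contra hcon
      push Not at hcon
      have : vb k * vb u ≤ vb k * (96 / 100) := mul_le_mul_of_nonneg_left hcon (by linarith)
      rw [← hvb] at this
      linarith
    have hs : va u - vb u = √5 * u.im := by
      unfold va vb
      ring
    obtain ⟨s1, s2⟩ := GKT_s5
    have him : u.im = 0 := by
      have i1 : (u.im : ℝ) < 1 := by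
        by_contra hcon
        push Not at hcon
        have : √5 * 1 ≤ √5 * (u.im : ℝ) := mul_le_mul_of_nonneg_left hcon (by linarith)
        linarith
      have i2 : (-1 : ℝ) < u.im := by
        by_contra hcon
        push Not at hcon
        have : √5 * (u.im : ℝ) ≤ √5 * (-1) := mul_le_mul_of_nonneg_left hcon (by linarith)
        linarith
      have j1 : u.im < 1 := by exact_mod_cast i1
      have j2 : -1 < u.im := by exact_mod_cast i2
      omega
    have hre : u.re = 1 := by
      have hv : va u = u.re := by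
        unfold va
        rw [him]
        simp
      rw [hv] at e1 e2
      have i1 : (u.re : ℝ) < 2 := by linarith
      have i2 : (0 : ℝ) < u.re := by linarith
      have j1 : u.re < 2 := by exact_mod_cast i1
      have j2 : 0 < u.re := by exact_mod_cast i2
      omega
    have hu1 : u = 1 := by
      ext
      · rw [hre, QuadraticAlgebra.re_one]
      · rw [him, QuadraticAlgebra.im_one]
    rw [hu, hu1, mul_one]

end Pool.Agent.RF
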